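import Pool.Agent.P8H81.LP.Upper
import Pool.Agent.P8H81.LP.Lower
import Pool.Agent.P8H83.LPB.Supp
import Pool.Agent.P8H78.LPB.Mgf
import Pool.Agent.P8H43.LPB.Sub
import Pool.Agent.P8H75.LPB.Dbl
import Pool.Agent.P8H4.LPB.Exm
import Pool.Agent.P8H78.LPB.Pth
import Pool.Agent.P8H54.LPB.Mrk
import Pool.Agent.P8H46.LPB.Tlt
import Pool.Agent.P8H42.LPB.Slo
import Pool.Agent.P8H21.LPB.Spr
import Pool.Agent.P8H37.LPB.Jen
import Pool.Agent.P8H45.LPB.Low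
import Pool.Agent.P8H52.LPB.Chb
import Pool.Agent.P8H94.LPB.Num

/-! # MP_b30792_pr: stretched exponential bounds of the free energy from both sides -/

set_option autoImplicit false

open MeasureTheory ProbabilityTheory Filter

namespace Pool.Agent.Results.MP_b30792_pr.TwoSided

/-- the position after `n` steps of the nearest neighbour path with the steps `σ` -/
def position {N : ℕ} (σ : Fin N → Fin 2 × Bool) (n : ℕ) : Fin 2 → ℤ :=
  ∑ k ∈ Finset.univ.filter (fun k : Fin N => k.val < n),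
    (Pi.single (σ k).1 (if (σ k).2 then (1 : ℤ) else -1) : Fin 2 → ℤ)

/-- the normalised partition function `W_N^β` in the environment `w`: the mean over the `4^N`
nearest neighbour paths of length `N` from the origin -/
noncomputable def partitionFunction (β : ℝ) (N : ℕ) (w : ℕ → (Fin 2 → ℤ) → ℝ) : ℝ :=
  ((4 : ℝ) ^ N)⁻¹ * ∑ σ : Fin N → Fin 2 × Bool,
    Real.exp (∑ n ∈ Finset.Icc 1 N, (β * w n (position σ n) - β ^ 2 / 2))

/-- the Euclidean norm -/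
noncomputable def norm2 (x : Fin 2 → ℤ) : ℝ := √((x 0 : ℝ) ^ 2 + (x 1 : ℝ) ^ 2)

/-- For every `a > -1`, every correlation `h` of the problem and every centred Gaussian field `ω`
with covariance `1_{n=m} h(y-z)`: for every `β > 0` the free energy `p β` exists as an almost sure
deterministic limit, `p β ≤ 0`, and for all small `β > 0`
`exp (-(C/β)^(2/(a+1))) ≤ -p β ≤ exp (-(c/β)^(2/(a+2)))` with constants `c, C > 0`. -/
theorem result (a : ℝ) (ha : -1 < a) (h : (Fin 2 → ℤ) → ℝ) (h0 : h 0 = 1)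
    (hnn : ∀ x, 0 ≤ h x) (hsym : ∀ x, h (-x) = h x)
    (hpsd : ∀ (s : Finset (Fin 2 → ℤ)) (b : (Fin 2 → ℤ) → ℝ),
      0 ≤ ∑ x ∈ s, ∑ y ∈ s, b x * b y * h (x - y))
    (hdec : Tendsto (fun x : Fin 2 → ℤ => h x * norm2 x ^ 2 / (Real.log (norm2 x)) ^ a)
      cofinite (nhds 1))
    {Ω : Type} [MeasurableSpace Ω] (P : Measure Ω) [IsProbabilityMeasure P]
    (ω : ℕ → (Fin 2 → ℤ) → Ω → ℝ) (hm : ∀ n x, Measurable (ω n x))
    (hgauss : ∀ (s : Finset (ℕ × (Fin 2 → ℤ))) (b : ℕ × (Fin 2 → ℤ) → ℝ),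
      P.map (fun w => ∑ i ∈ s, b i * ω i.1 i.2 w) =
        gaussianReal 0 (Real.toNNReal (∑ i ∈ s, ∑ j ∈ s,
          b i * b j * (if i.1 = j.1 then h (i.2 - j.2) else 0)))) :
    ∃ (p : ℝ → ℝ) (c C b₀ : ℝ), 0 < c ∧ 0 < C ∧ 0 < b₀ ∧
      (∀ β : ℝ, 0 < β → p β ≤ 0 ∧ ∀ᵐ w ∂P, Tendsto (fun N : ℕ =>
        Real.log (partitionFunction β N (fun n x => ω n x w)) / (N : ℝ)) atTop (nhds (p β))) ∧
      ∀ β : ℝ, 0 < β → β < b₀ → Real.exp (-(C / β) ^ (2 / (a + 1))) ≤ -p β ∧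
        -p β ≤ Real.exp (-(c / β) ^ (2 / (a + 2))) := by
  obtain ⟨μ, hμ, hG, hlaw⟩ := Pool.Agent.P8H81.LP.law_env h hpsd P ω hm hgauss
  have good := Pool.Agent.P8H81.LP.GoodAux.taskGood h h0 hsym hnn μ hμ hG
  have hPath : Pool.Agent.P8H81.LP.TaskPath := Pool.Agent.P8H81.LP.taskPath
  have hInt : Pool.Agent.P8H81.LP.TaskInt := Pool.Agent.P8H81.LP.IntAux.taskInt hPath
  have hdec' : Tendsto (fun x : Fin 2 → ℤ => h x * ((x 0 : ℝ) ^ 2 + (x 1 : ℝ) ^ 2) /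
      (Real.log (√((x 0 : ℝ) ^ 2 + (x 1 : ℝ) ^ 2))) ^ a) cofinite (nhds 1) := by
    refine hdec.congr fun x => ?_
    unfold norm2
    rw [Real.sq_sqrt (by positivity)]
  obtain ⟨p, c, b₁, hc, hb₁, hp, hup⟩ := Pool.Agent.P8H81.LP.upper a ha h hnn hdec' μ good
  obtain ⟨C, b₂, hC, hb₂, hlow⟩ := Pool.Agent.P8H81.LP.lower 
    Pool.Agent.P8H43.LPB.sub Pool.Agent.P8H37.LPB.jen Pool.Agent.P8H46.LPB.tlt
    Pool.Agent.P8H78.LPB.pth Pool.Agent.P8H78.LPB.mgf Pool.Agent.P8H4.LPB.exm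
    Pool.Agent.P8H21.LPB.spr Pool.Agent.P8H45.LPB.low Pool.Agent.P8H75.LPB.dbl
    Pool.Agent.P8H75.LP.taskSum Pool.Agent.P8H52.LPB.chb Pool.Agent.P8H54.LPB.mrk
    Pool.Agent.P8H42.LPB.slo Pool.Agent.P8H83.LPB.supp Pool.Agent.P8H94.LPB.num
    hPath hInt a ha h h0 hnn hsym hpsd hdec' μ hμ hG good
  refine ⟨p, c, C, min b₁ b₂, hc, hC, lt_min hb₁ hb₂, ?_, ?_⟩
  · intro β hβ
    obtain ⟨hp0, -, h1⟩ := hp β hβ
    refine ⟨hp0, ?_⟩
    rw [← hlaw] at h1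
    have h2 := ae_of_ae_map (measurable_pi_lambda _ fun n =>
      measurable_pi_lambda _ fun x => hm n x).aemeasurable h1
    filter_upwards [h2] with w hw
    refine hw.congr fun N => ?_
    congr 1
    show Real.log (Pool.Agent.P8H81.LP.Wr N _ 0) = _
    rw [← hPath]
    unfold Pool.Agent.P8H81.LP.Wp partitionFunction
    simp only [zero_add]
    rfl
  · intro β hβ hβb
    refine ⟨?_, hup β hβ (hβb.trans_le (min_le_left _ _))⟩
    have h3 := hlow β hβ (hβb.trans_le (min_le_right _ _)) (p β) (hp β hβ).2.1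
    linarith

end Pool.Agent.Results.MP_b30792_pr.TwoSided
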